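import Pool.Agent.H383.GenW

/-!
# Mean squares over windows of a function with a smoothed trigonometric expansion
-/

open MeasureTheory Filter Topology
open Pool.Agent.H383.GW

set_option linter.unusedSectionVars false
set_option linter.unusedVariables false
set_option autoImplicit false

namespace Pool.Agent.Q212.GC

noncomputable section

/-- integrals of cosines -/
theorem cos_int {α : ℝ} (hα : α ≠ 0) (β U V : ℝ) : |∫ r in U..V, Real.cos (α * r + β)| ≤ 2 / |α| := by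
  have h1 : ∫ r in U..V, Real.cos (α * r + β) = Real.sin (α * V + β) / α - Real.sin (α * U + β) / α := by
    refine intervalIntegral.integral_eq_sub_of_hasDerivAt (f := fun r : ℝ => Real.sin (α * r + β) / α) (fun r _ => ?_)
      ((by fun_prop : Continuous fun r : ℝ => Real.cos (α * r + β)).intervalIntegrable _ _)
    have h2 : HasDerivAt (fun r : ℝ => α * r + β) α r := by
      simpa using ((hasDerivAt_id r).const_mul α).add_const β
    have h3 := (h2.sin).div_const α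
    refine h3.congr_deriv ?_
    field_simp
  rw [h1, ← sub_div, abs_div]
  refine div_le_div_of_nonneg_right ?_ (abs_nonneg _)
  have h4 := Real.abs_sin_le_one (α * V + β)
  have h5 := Real.abs_sin_le_one (α * U + β)
  exact (abs_sub _ _).trans (by linarith)

/-- a product of cosines with different frequencies -/
theorem cos_cos {p q : ℝ} (hp : 0 < p) (hq : 0 ≤ q) (hpq : p ≠ q) (β γ U V : ℝ) :
    |∫ r in U..V, Real.cos (p * r + β) * Real.cos (q * r + γ)| ≤ 2 / |p - q| := by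
  have h1 : ∀ r : ℝ, Real.cos (p * r + β) * Real.cos (q * r + γ) =
      1 / 2 * Real.cos ((p - q) * r + (β - γ)) + 1 / 2 * Real.cos ((p + q) * r + (β + γ)) := by
    intro r
    have e1 : (p - q) * r + (β - γ) = (p * r + β) - (q * r + γ) := by ring
    have e2 : (p + q) * r + (β + γ) = (p * r + β) + (q * r + γ) := by ring
    rw [e1, e2, Real.cos_sub (p * r + β) (q * r + γ), Real.cos_add (p * r + β) (q * r + γ)]
    ring
  simp_rw [h1]
  rw [intervalIntegral.integral_add ((by fun_prop : Continuous fun r : ℝ => 1 / 2 * Real.cos ((p - q) * r + (β - γ))).intervalIntegrable _ _)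
    ((by fun_prop : Continuous fun r : ℝ => 1 / 2 * Real.cos ((p + q) * r + (β + γ))).intervalIntegrable _ _),
    intervalIntegral.integral_const_mul, intervalIntegral.integral_const_mul]
  have h2 := cos_int (sub_ne_zero.2 hpq) (β - γ) U V
  have h3 := cos_int (by positivity : p + q ≠ 0) (β + γ) U V
  have h4 : 2 / |p + q| ≤ 2 / |p - q| := by
    refine div_le_div_of_nonneg_left (by norm_num) (abs_pos.2 (sub_ne_zero.2 hpq)) ?_
    rw [abs_of_pos (by positivity : 0 < p + q), abs_le]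
    constructor <;> linarith
  have h5 := abs_add_le (1 / 2 * ∫ r in U..V, Real.cos ((p - q) * r + (β - γ))) (1 / 2 * ∫ r in U..V, Real.cos ((p + q) * r + (β + γ)))
  rw [abs_mul, abs_mul, abs_of_pos (by norm_num : (0:ℝ) < 1 / 2)] at h5
  linarith

/-- a product of cosines with the same frequency -/
theorem cos_same {p : ℝ} (hp : 0 < p) (β γ U V : ℝ) :
    |(∫ r in U..V, Real.cos (p * r + β) * Real.cos (p * r + γ)) - (V - U) / 2 * Real.cos (β - γ)| ≤ 1 / p := by
  have h1 : ∀ r : ℝ, Real.cos (p * r + β) * Real.cos (p * r + γ) =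
      1 / 2 * Real.cos (β - γ) + 1 / 2 * Real.cos ((2 * p) * r + (β + γ)) := by
    intro r
    have e1 : β - γ = (p * r + β) - (p * r + γ) := by ring
    have e2 : (2 * p) * r + (β + γ) = (p * r + β) + (p * r + γ) := by ring
    rw [e1, e2, Real.cos_sub (p * r + β) (p * r + γ), Real.cos_add (p * r + β) (p * r + γ)]
    ring
  simp_rw [h1]
  rw [intervalIntegral.integral_add (continuous_const.intervalIntegrable _ _)
    ((by fun_prop : Continuous fun r : ℝ => 1 / 2 * Real.cos ((2 * p) * r + (β + γ))).intervalIntegrable _ _),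
    intervalIntegral.integral_const, intervalIntegral.integral_const_mul, smul_eq_mul]
  have h3 := cos_int (by positivity : 2 * p ≠ 0) (β + γ) U V
  rw [abs_of_pos (by positivity : 0 < 2 * p)] at h3
  have h4 : (V - U) * (1 / 2 * Real.cos (β - γ)) + 1 / 2 * (∫ r in U..V, Real.cos ((2 * p) * r + (β + γ))) -
      (V - U) / 2 * Real.cos (β - γ) = 1 / 2 * ∫ r in U..V, Real.cos ((2 * p) * r + (β + γ)) := by ring
  rw [h4, abs_mul, abs_of_pos (by norm_num : (0:ℝ) < 1 / 2)]
  have h5 : 1 / 2 * (2 / (2 * p)) ≤ 1 / p := by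
    have : 1 / 2 * (2 / (2 * p)) = 1 / 2 * (1 / p) := by field_simp
    rw [this]
    have : 0 < 1 / p := by positivity
    linarith
  linarith

/-- the distance of two frequencies -/
theorem gap {m n : ℕ} (hm : 1 ≤ m) (hn : 1 ≤ n) (h : m ≠ n) :
    √(m:ℝ) / ((n + 1) * (1 + √(n:ℝ))) ≤ |√(m:ℝ) - √(n:ℝ)| := by
  have hm0 : (1:ℝ) ≤ m := by exact_mod_cast hm
  have hn0 : (1:ℝ) ≤ n := by exact_mod_cast hn
  have hsm : 1 ≤ √(m:ℝ) := Real.one_le_sqrt.2 hm0
  have hsn : 1 ≤ √(n:ℝ) := Real.one_le_sqrt.2 hn0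
  have h1 : |(m:ℝ) - n| = |√(m:ℝ) - √(n:ℝ)| * (√(m:ℝ) + √(n:ℝ)) := by
    have : (m:ℝ) - n = (√(m:ℝ) - √(n:ℝ)) * (√(m:ℝ) + √(n:ℝ)) := by
      have e1 := Real.mul_self_sqrt (by linarith : (0:ℝ) ≤ m)
      have e2 := Real.mul_self_sqrt (by linarith : (0:ℝ) ≤ n)
      nlinarith
    rw [this, abs_mul, abs_of_pos (by linarith : 0 < √(m:ℝ) + √(n:ℝ))]
  have h2 : (m:ℝ) ≤ |(m:ℝ) - n| * (n + 1) := by
    rcases lt_or_gt_of_ne h with h3 | h3
    · have h4 : (m:ℝ) + 1 ≤ n := by exact_mod_cast h3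
      rw [abs_of_nonpos (by linarith)]
      nlinarith
    · have h4 : (n:ℝ) + 1 ≤ m := by exact_mod_cast h3
      rw [abs_of_nonneg (by linarith)]
      nlinarith
  rw [h1] at h2
  have h3 : √(m:ℝ) + √(n:ℝ) ≤ √(m:ℝ) * (1 + √(n:ℝ)) := by nlinarith
  have e1 := Real.mul_self_sqrt (by linarith : (0:ℝ) ≤ m)
  rw [div_le_iff₀ (by positivity)]
  have h4 : √(m:ℝ) * √(m:ℝ) ≤ √(m:ℝ) * (|√(m:ℝ) - √(n:ℝ)| * ((n + 1) * (1 + √(n:ℝ)))) := by
    rw [e1]
    refine h2.trans ?_
    have h5 : 0 ≤ |√(m:ℝ) - √(n:ℝ)| * ((n:ℝ) + 1) := by positivity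
    have h6 := mul_le_mul_of_nonneg_left h3 h5
    nlinarith
  exact le_of_mul_le_mul_left h4 (by linarith)

variable {a : ℕ → ℝ} {φ : ℝ} {w : ℝ → ℂ}

/-- one term of the smoothed sum is a cosine -/
theorem wt_cos (κ δ : ℝ) (m : ℕ) : ∃ A β : ℝ, (∀ r : ℝ, wt a φ w (r + κ * δ) δ m = A * Real.cos (2 * Real.pi * √(m:ℝ) * r + β)) ∧
    A = a m * ‖w (√(m:ℝ) * δ)‖ ∧ ∀ ψ : ℝ, A * Real.cos (β + ψ) =
      a m * (Complex.exp (((2 * Real.pi * (κ * δ * √(m:ℝ)) - φ + ψ : ℝ) : ℂ) * Complex.I) * w (√(m:ℝ) * δ)).re := by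
  set z : ℂ := w (√(m:ℝ) * δ) with hz
  have key : ∀ θ : ℝ, (Complex.exp ((θ : ℂ) * Complex.I) * z).re = ‖z‖ * Real.cos (θ + Complex.arg z) := by
    intro θ
    have h1 : z = (‖z‖ : ℂ) * Complex.exp ((Complex.arg z : ℂ) * Complex.I) := (Complex.norm_mul_exp_arg_mul_I z).symm
    have h2 : Complex.exp ((θ : ℂ) * Complex.I) * z = (‖z‖ : ℂ) * Complex.exp (((θ + Complex.arg z : ℝ) : ℂ) * Complex.I) := by
      conv_lhs => rw [h1]
      rw [mul_left_comm, ← Complex.exp_add]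
      congr 2
      push_cast
      ring
    rw [h2, Complex.re_ofReal_mul, Complex.exp_ofReal_mul_I_re]
  refine ⟨a m * ‖z‖, 2 * Real.pi * (κ * δ * √(m:ℝ)) - φ + Complex.arg z, fun r => ?_, rfl, fun ψ => ?_⟩
  · unfold wt
    rw [← hz, key, ← mul_assoc]
    congr 2
    ring
  · rw [key, ← mul_assoc (a m) ‖z‖]
    congr 2
    ring

end

end Pool.Agent.Q212.GC
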