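import Pool.Agent.Q212.GC.A

/-!
# Mean squares over windows: the smoothed sums and the sandwich
-/

open MeasureTheory Filter Topology
open Pool.Agent.H383.GW Pool.Agent.H383.Gen

set_option linter.unusedSectionVars false
set_option linter.unusedVariables false
set_option autoImplicit false

namespace Pool.Agent.Q212.GC

noncomputable section

variable {a : ℕ → ℝ} {φ : ℝ} {w : ℝ → ℂ}

theorem summable_inv (ha : Bd a) : Summable fun m : ℕ => |a m| / √(m:ℝ) := by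
  obtain ⟨C, hC, ha⟩ := ha
  have hs : Summable (fun m : ℕ => C * (m:ℝ) ^ (-(31/25):ℝ)) := by
    apply Summable.mul_left
    rw [Real.summable_nat_rpow]; norm_num
  refine Summable.of_nonneg_of_le (fun m => by positivity) (fun m => ?_) hs
  rcases Nat.eq_zero_or_pos m with rfl | hm
  · simp only [Nat.cast_zero, Real.sqrt_zero, div_zero]; positivity
  · have hm0 : (0:ℝ) < m := by exact_mod_cast hm
    have hs : 0 < √(m:ℝ) := Real.sqrt_pos.mpr hm0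
    calc |a m| / √(m:ℝ) ≤ C * (√(m:ℝ)) ^ (-(37/25):ℝ) / √(m:ℝ) := by
          exact div_le_div_of_nonneg_right (ha m hm) hs.le
      _ = C * ((√(m:ℝ)) ^ (-(37/25):ℝ) * (√(m:ℝ)) ^ (-1:ℝ)) := by rw [Real.rpow_neg_one]; ring
      _ = C * (m:ℝ) ^ (-(31/25):ℝ) := by
          rw [← Real.rpow_add hs, Real.sqrt_eq_rpow, ← Real.rpow_mul hm0.le]; norm_num

theorem wt_cont (a : ℕ → ℝ) (φ : ℝ) (w : ℝ → ℂ) (κ δ : ℝ) (m : ℕ) : Continuous fun r : ℝ => wt a φ w (r + κ * δ) δ m := by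
  obtain ⟨A, β, h, -, -⟩ := wt_cos (a := a) (φ := φ) (w := w) κ δ m
  simp_rw [h]
  fun_prop

theorem term_int (hw : Wt w) (κ : ℝ) {δ : ℝ} (hδ : 0 < δ) {m : ℕ} (hm : 1 ≤ m) (U V : ℝ) :
    |∫ r in U..V, wt a φ w (r + κ * δ) δ m| ≤ |a m| / √(m:ℝ) := by
  have hm0 : (1:ℝ) ≤ m := by exact_mod_cast hm
  have hs : 1 ≤ √(m:ℝ) := Real.one_le_sqrt.2 hm0
  obtain ⟨A, β, h, hA, -⟩ := wt_cos (a := a) (φ := φ) (w := w) κ δ m
  simp_rw [h]
  rw [intervalIntegral.integral_const_mul, abs_mul]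
  have hA' : |A| ≤ |a m| := by
    rw [hA, abs_mul, abs_of_nonneg (norm_nonneg _)]
    exact mul_le_of_le_one_right (abs_nonneg _) (hw.one _ (by positivity))
  have hp : 0 < 2 * Real.pi * √(m:ℝ) := by have := Real.pi_pos; positivity
  have h1 := cos_int hp.ne' β U V
  rw [abs_of_pos hp] at h1
  have h2 : 2 / (2 * Real.pi * √(m:ℝ)) ≤ 1 / √(m:ℝ) := by
    rw [div_le_div_iff₀ hp (by positivity)]
    have := Real.pi_gt_three
    nlinarith
  calc |A| * |∫ r in U..V, Real.cos (2 * Real.pi * √(m:ℝ) * r + β)| ≤ |a m| * (1 / √(m:ℝ)) :=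
        mul_le_mul hA' (h1.trans h2) (abs_nonneg _) (abs_nonneg _)
    _ = _ := by ring

theorem term_other (hw : Wt w) (κ : ℝ) {δ : ℝ} (hδ : 0 < δ) {m n : ℕ} (hm : 1 ≤ m) (hn : 1 ≤ n) (hmn : m ≠ n) (ψ U V : ℝ) :
    |∫ r in U..V, wt a φ w (r + κ * δ) δ m * Real.cos (2 * Real.pi * √(n:ℝ) * r - ψ)| ≤
      (n + 1) * (1 + √(n:ℝ)) * (|a m| / √(m:ℝ)) := by
  have hm0 : (1:ℝ) ≤ m := by exact_mod_cast hm
  have hn0 : (1:ℝ) ≤ n := by exact_mod_cast hn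
  have hs : 1 ≤ √(m:ℝ) := Real.one_le_sqrt.2 hm0
  have hsn : 1 ≤ √(n:ℝ) := Real.one_le_sqrt.2 hn0
  have hpi := Real.pi_gt_three
  obtain ⟨A, β, h, hA, -⟩ := wt_cos (a := a) (φ := φ) (w := w) κ δ m
  simp_rw [h]
  have e1 : ∀ r : ℝ, A * Real.cos (2 * Real.pi * √(m:ℝ) * r + β) * Real.cos (2 * Real.pi * √(n:ℝ) * r - ψ) =
      A * (Real.cos (2 * Real.pi * √(m:ℝ) * r + β) * Real.cos (2 * Real.pi * √(n:ℝ) * r + -ψ)) := by
    intro r; rw [mul_assoc, ← sub_eq_add_neg]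
  simp_rw [e1]
  rw [intervalIntegral.integral_const_mul, abs_mul]
  have hA' : |A| ≤ |a m| := by
    rw [hA, abs_mul, abs_of_nonneg (norm_nonneg _)]
    exact mul_le_of_le_one_right (abs_nonneg _) (hw.one _ (by positivity))
  have hne : √(m:ℝ) ≠ √(n:ℝ) := by
    intro h1
    rw [Real.sqrt_inj (by positivity) (by positivity)] at h1
    exact hmn (by exact_mod_cast h1)
  have hpne : 2 * Real.pi * √(m:ℝ) ≠ 2 * Real.pi * √(n:ℝ) := by
    intro h1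
    exact hne (mul_left_cancel₀ (by positivity) h1)
  have h1 := cos_cos (p := 2 * Real.pi * √(m:ℝ)) (q := 2 * Real.pi * √(n:ℝ)) (by positivity) (by positivity) hpne β (-ψ) U V
  have hg := gap hm hn hmn
  have hgp : 0 < √(m:ℝ) / ((n + 1) * (1 + √(n:ℝ))) := by positivity
  have h2 : 2 / |2 * Real.pi * √(m:ℝ) - 2 * Real.pi * √(n:ℝ)| ≤ (n + 1) * (1 + √(n:ℝ)) / √(m:ℝ) := by
    rw [← mul_sub, abs_mul, abs_of_pos (by positivity : 0 < 2 * Real.pi)]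
    have h3 : 2 / (2 * Real.pi * |√(m:ℝ) - √(n:ℝ)|) ≤ 1 / |√(m:ℝ) - √(n:ℝ)| := by
      have h4 : 0 < |√(m:ℝ) - √(n:ℝ)| := hgp.trans_le hg
      rw [div_le_div_iff₀ (by positivity) h4]
      nlinarith
    refine h3.trans ?_
    refine (one_div_le_one_div_of_le hgp hg).trans (le_of_eq ?_)
    field_simp
  calc |A| * |∫ r in U..V, Real.cos (2 * Real.pi * √(m:ℝ) * r + β) * Real.cos (2 * Real.pi * √(n:ℝ) * r + -ψ)| ≤
      |a m| * ((n + 1) * (1 + √(n:ℝ)) / √(m:ℝ)) := mul_le_mul hA' (h1.trans h2) (abs_nonneg _) (abs_nonneg _)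
    _ = _ := by ring

theorem term_same (hw : Wt w) {Cl : ℝ} (hCl : 0 < Cl) (hl : ∀ y : ℝ, 0 < y → ‖w y - 1‖ ≤ Cl * y)
    (κ : ℝ) {δ : ℝ} (hδ : 0 < δ) {n : ℕ} (hn : 1 ≤ n) (ψ : ℝ) {U V : ℝ} (hUV : U ≤ V) :
    |(∫ r in U..V, wt a φ w (r + κ * δ) δ n * Real.cos (2 * Real.pi * √(n:ℝ) * r - ψ)) -
        (V - U) / 2 * (a n * Real.cos (φ - ψ))| ≤
      |a n| + (V - U) * (|a n| * √(n:ℝ) * (2 * Real.pi * |κ| + Cl) * δ) := by
  have hn0 : (1:ℝ) ≤ n := by exact_mod_cast hn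
  have hsn : 1 ≤ √(n:ℝ) := Real.one_le_sqrt.2 hn0
  have hpi := Real.pi_gt_three
  obtain ⟨A, β, h, hA, hc⟩ := wt_cos (a := a) (φ := φ) (w := w) κ δ n
  simp_rw [h]
  have e1 : ∀ r : ℝ, A * Real.cos (2 * Real.pi * √(n:ℝ) * r + β) * Real.cos (2 * Real.pi * √(n:ℝ) * r - ψ) =
      A * (Real.cos (2 * Real.pi * √(n:ℝ) * r + β) * Real.cos (2 * Real.pi * √(n:ℝ) * r + -ψ)) := by
    intro r; rw [mul_assoc, ← sub_eq_add_neg]
  simp_rw [e1]
  rw [intervalIntegral.integral_const_mul]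
  have hA' : |A| ≤ |a n| := by
    rw [hA, abs_mul, abs_of_nonneg (norm_nonneg _)]
    exact mul_le_of_le_one_right (abs_nonneg _) (hw.one _ (by positivity))
  have h1 := cos_same (p := 2 * Real.pi * √(n:ℝ)) (by positivity) β (-ψ) U V
  rw [sub_neg_eq_add] at h1
  have h2 : 1 / (2 * Real.pi * √(n:ℝ)) ≤ 1 := by
    rw [div_le_one (by positivity)]; nlinarith
  set I := ∫ r in U..V, Real.cos (2 * Real.pi * √(n:ℝ) * r + β) * Real.cos (2 * Real.pi * √(n:ℝ) * r + -ψ) with hI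
  have h3 : |A * (I - (V - U) / 2 * Real.cos (β + ψ))| ≤ |a n| := by
    rw [abs_mul]
    calc |A| * |I - (V - U) / 2 * Real.cos (β + ψ)| ≤ |a n| * 1 :=
          mul_le_mul hA' (h1.trans h2) (abs_nonneg _) (abs_nonneg _)
      _ = _ := mul_one _
  set θ' : ℝ := 2 * Real.pi * (κ * δ * √(n:ℝ)) - φ + ψ with hθ'
  set θ : ℝ := -φ + ψ with hθ
  have h4 : (Complex.exp ((θ' : ℂ) * Complex.I) * w (√(n:ℝ) * δ)).re - Real.cos θ =
      (Complex.exp ((θ' : ℂ) * Complex.I) * (w (√(n:ℝ) * δ) - 1)).re + (Real.cos θ' - Real.cos θ) := by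
    rw [mul_sub, Complex.sub_re, mul_one, Complex.exp_ofReal_mul_I_re]; ring
  have h5 : |(Complex.exp ((θ' : ℂ) * Complex.I) * (w (√(n:ℝ) * δ) - 1)).re| ≤ Cl * (√(n:ℝ) * δ) := by
    refine (Complex.abs_re_le_norm _).trans ?_
    rw [norm_mul, Complex.norm_exp_ofReal_mul_I, one_mul]
    exact hl _ (by positivity)
  have h6 : |Real.cos θ' - Real.cos θ| ≤ 2 * Real.pi * |κ| * (√(n:ℝ) * δ) := by
    refine (Real.abs_cos_sub_cos_le θ' θ).trans ?_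
    have e : θ' - θ = (2 * Real.pi * √(n:ℝ) * δ) * κ := by rw [hθ', hθ]; ring
    rw [e, abs_mul, abs_of_pos (by positivity : 0 < 2 * Real.pi * √(n:ℝ) * δ)]
    apply le_of_eq; ring
  have h7 : |A * Real.cos (β + ψ) - a n * Real.cos (φ - ψ)| ≤ |a n| * √(n:ℝ) * (2 * Real.pi * |κ| + Cl) * δ := by
    have e2 : Real.cos (φ - ψ) = Real.cos θ := by
      rw [hθ, ← Real.cos_neg]; congr 1; ring
    rw [hc ψ, e2, ← mul_sub, abs_mul, h4]
    calc |a n| * |(Complex.exp ((θ' : ℂ) * Complex.I) * (w (√(n:ℝ) * δ) - 1)).re + (Real.cos θ' - Real.cos θ)| ≤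
        |a n| * (Cl * (√(n:ℝ) * δ) + 2 * Real.pi * |κ| * (√(n:ℝ) * δ)) :=
          mul_le_mul_of_nonneg_left ((abs_add_le _ _).trans (add_le_add h5 h6)) (abs_nonneg _)
      _ = _ := by ring
  have e3 : A * I - (V - U) / 2 * (a n * Real.cos (φ - ψ)) = A * (I - (V - U) / 2 * Real.cos (β + ψ)) +
      (V - U) / 2 * (A * Real.cos (β + ψ) - a n * Real.cos (φ - ψ)) := by ring
  rw [e3]
  have h8 : |(V - U) / 2 * (A * Real.cos (β + ψ) - a n * Real.cos (φ - ψ))| ≤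
      (V - U) * (|a n| * √(n:ℝ) * (2 * Real.pi * |κ| + Cl) * δ) := by
    rw [abs_mul, abs_of_nonneg (by linarith : 0 ≤ (V - U) / 2)]
    refine mul_le_mul (by linarith) h7 (abs_nonneg _) (by linarith)
  exact (abs_add_le _ _).trans (add_le_add h3 h8)

/-- the truncated smoothed sum -/
def SS (a : ℕ → ℝ) (φ : ℝ) (w : ℝ → ℂ) (κ δ : ℝ) (Y : ℕ) (r : ℝ) : ℝ :=
  ∑ m ∈ Finset.Icc 1 (Y^2), wt a φ w (r + κ * δ) δ m

theorem SS_cont (a : ℕ → ℝ) (φ : ℝ) (w : ℝ → ℂ) (κ δ : ℝ) (Y : ℕ) : Continuous (SS a φ w κ δ Y) := by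
  unfold SS
  exact continuous_finsetSum _ fun m _ => wt_cont a φ w κ δ m

theorem SS_int (ha : Bd a) (hw : Wt w) (κ : ℝ) {δ : ℝ} (hδ : 0 < δ) (Y : ℕ) (U V : ℝ) :
    |∫ r in U..V, SS a φ w κ δ Y r| ≤ ∑' m : ℕ, |a m| / √(m:ℝ) := by
  unfold SS
  rw [intervalIntegral.integral_finsetSum fun m _ => (wt_cont a φ w κ δ m).intervalIntegrable _ _]
  refine (Finset.abs_sum_le_sum_abs _ _).trans ?_
  refine (Finset.sum_le_sum fun m hm => term_int hw κ hδ (Finset.mem_Icc.1 hm).1 U V).trans ?_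
  exact (summable_inv ha).sum_le_tsum _ fun m _ => by positivity

theorem SS_cos (ha : Bd a) (hw : Wt w) {Cl : ℝ} (hCl : 0 < Cl) (hl : ∀ y : ℝ, 0 < y → ‖w y - 1‖ ≤ Cl * y)
    (κ : ℝ) {δ : ℝ} (hδ : 0 < δ) {n Y : ℕ} (hn : 1 ≤ n) (hnY : n ≤ Y^2) (ψ : ℝ) {U V : ℝ} (hUV : U ≤ V) :
    |(∫ r in U..V, SS a φ w κ δ Y r * Real.cos (2 * Real.pi * √(n:ℝ) * r - ψ)) -
        (V - U) / 2 * (a n * Real.cos (φ - ψ))| ≤
      (n + 1) * (1 + √(n:ℝ)) * (∑' m : ℕ, |a m| / √(m:ℝ)) + (|a n| +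
        (V - U) * (|a n| * √(n:ℝ) * (2 * Real.pi * |κ| + Cl) * δ)) := by
  unfold SS
  simp_rw [Finset.sum_mul]
  have hcc : Continuous fun r : ℝ => Real.cos (2 * Real.pi * √(n:ℝ) * r - ψ) := by fun_prop
  have hci : ∀ m ∈ Finset.Icc 1 (Y^2), IntervalIntegrable
      (fun r : ℝ => wt a φ w (r + κ * δ) δ m * Real.cos (2 * Real.pi * √(n:ℝ) * r - ψ)) volume U V :=
    fun m _ => ((wt_cont a φ w κ δ m).mul hcc).intervalIntegrable _ _
  rw [intervalIntegral.integral_finsetSum hci]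
  have hmem : n ∈ Finset.Icc 1 (Y^2) := Finset.mem_Icc.2 ⟨hn, hnY⟩
  rw [← Finset.add_sum_erase _ _ hmem]
  have h1 := term_same (a := a) (φ := φ) hw hCl hl κ hδ hn ψ hUV
  have h2 : |∑ m ∈ (Finset.Icc 1 (Y^2)).erase n, ∫ r in U..V, wt a φ w (r + κ * δ) δ m * Real.cos (2 * Real.pi * √(n:ℝ) * r - ψ)| ≤
      (n + 1) * (1 + √(n:ℝ)) * (∑' m : ℕ, |a m| / √(m:ℝ)) := by
    refine (Finset.abs_sum_le_sum_abs _ _).trans ?_
    refine (Finset.sum_le_sum fun m hm => term_other hw κ hδ (Finset.mem_Icc.1 (Finset.mem_erase.1 hm).2).1 hn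
      (Finset.mem_erase.1 hm).1 ψ U V).trans ?_
    rw [← Finset.mul_sum]
    refine mul_le_mul_of_nonneg_left ?_ (by positivity)
    exact (summable_inv ha).sum_le_tsum _ fun m _ => by positivity
  set X := ∫ r in U..V, wt a φ w (r + κ * δ) δ n * Real.cos (2 * Real.pi * √(n:ℝ) * r - ψ)
  set W := ∑ m ∈ (Finset.Icc 1 (Y^2)).erase n, ∫ r in U..V, wt a φ w (r + κ * δ) δ m * Real.cos (2 * Real.pi * √(n:ℝ) * r - ψ)
  have e : X + W - (V - U) / 2 * (a n * Real.cos (φ - ψ)) = W + (X - (V - U) / 2 * (a n * Real.cos (φ - ψ))) := by ring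
  rw [e]
  exact (abs_add_le _ _).trans (add_le_add h2 h1)

theorem er_le {U r : ℝ} (hU : 4 ≤ U) (hr : U ≤ r) (hr2 : r ≤ 2 * U) : er r (U ^ (-(52/100):ℝ)) ≤ 4 * U ^ (-(1/100):ℝ) := by
  have hU0 : 0 < U := by linarith
  have hU1 : 1 ≤ U := by linarith
  have hr0 : 0 < r := by linarith
  unfold er
  have h1 : U ^ (-(52/100):ℝ) * r ^ (51/100:ℝ) ≤ 2 * U ^ (-(1/100):ℝ) := by
    have h2 : r ^ (51/100:ℝ) ≤ 2 * U ^ (51/100:ℝ) := by
      refine (Real.rpow_le_rpow hr0.le hr2 (by norm_num)).trans ?_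
      rw [Real.mul_rpow (by norm_num) hU0.le]
      refine mul_le_mul_of_nonneg_right ?_ (by positivity)
      calc (2:ℝ) ^ (51/100:ℝ) ≤ (2:ℝ) ^ (1:ℝ) := Real.rpow_le_rpow_of_exponent_le (by norm_num) (by norm_num)
        _ = 2 := Real.rpow_one 2
    calc U ^ (-(52/100):ℝ) * r ^ (51/100:ℝ) ≤ U ^ (-(52/100):ℝ) * (2 * U ^ (51/100:ℝ)) :=
          mul_le_mul_of_nonneg_left h2 (by positivity)
      _ = 2 * (U ^ (-(52/100):ℝ) * U ^ (51/100:ℝ)) := by ring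
      _ = _ := by rw [← Real.rpow_add hU0]; norm_num
  have h3 : r ^ (-(12/25):ℝ) * (U ^ (-(52/100):ℝ)) ^ (-(13/25):ℝ) ≤ U ^ (-(1/100):ℝ) := by
    have h4 : r ^ (-(12/25):ℝ) ≤ U ^ (-(12/25):ℝ) := Real.rpow_le_rpow_of_nonpos hU0 hr (by norm_num)
    rw [← Real.rpow_mul hU0.le]
    calc r ^ (-(12/25):ℝ) * U ^ (-(52/100) * -(13/25) : ℝ) ≤ U ^ (-(12/25):ℝ) * U ^ (-(52/100) * -(13/25) : ℝ) :=
          mul_le_mul_of_nonneg_right h4 (by positivity)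
      _ = U ^ (-(12/25) + -(52/100) * -(13/25) : ℝ) := by rw [← Real.rpow_add hU0]
      _ ≤ _ := Real.rpow_le_rpow_of_exponent_le hU1 (by norm_num)
  have h5 : (U ^ (-(52/100):ℝ)) ^ (2/5:ℝ) ≤ U ^ (-(1/100):ℝ) := by
    rw [← Real.rpow_mul hU0.le]
    exact Real.rpow_le_rpow_of_exponent_le hU1 (by norm_num)
  linarith

theorem delta_le_half {U : ℝ} (hU : 4 ≤ U) : U ^ (-(52/100):ℝ) ≤ 1/2 := by
  have h1 : U ^ (-(52/100):ℝ) ≤ (4:ℝ) ^ (-(52/100):ℝ) := Real.rpow_le_rpow_of_nonpos (by norm_num) hU (by norm_num)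
  have h2 : (4:ℝ) ^ (-(52/100):ℝ) ≤ (4:ℝ) ^ (-(1/2):ℝ) := Real.rpow_le_rpow_of_exponent_le (by norm_num) (by norm_num)
  have h3 : (4:ℝ) ^ (-(1/2):ℝ) = 1/2 := by
    rw [show (4:ℝ) = 2 ^ (2:ℝ) by norm_num, ← Real.rpow_mul (by norm_num)]
    norm_num
  linarith

variable {E : ℝ → ℝ}

/-- `E` is close to the smoothed sum in the mean over every window -/
theorem near (ha : Bd a) (ha0 : a 0 = 0) (hw : Wt w) {κ₁ κ₂ C0 : ℝ} (hC0 : 0 < C0) (hS : Sand E a φ w κ₁ κ₂ C0)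
    (hE : ∀ U V, 1 ≤ U → U ≤ V → IntervalIntegrable E volume U V) (M : ℕ) :
    ∃ K : ℝ, 0 < K ∧ ∀ U : ℝ, 4 ≤ U → ∀ T : ℝ, 0 < T → T ≤ U → ∃ Y : ℕ, 1 ≤ Y ∧ M ≤ Y^2 ∧
      ∫ r in U..(U + T), |E r - SS a φ w κ₂ (U ^ (-(52/100):ℝ)) Y r| ≤ K * (1 + U ^ (-(1/100):ℝ) * T) := by
  obtain ⟨C', hC', hT⟩ := WS_tail (φ := φ) ha ha0 hw
  set Z := ∑' m : ℕ, |a m| / √(m:ℝ) with hZ
  have hZ0 : 0 ≤ Z := tsum_nonneg fun m => by positivity
  refine ⟨2 * Z + 3 * (4 * C0 + 1), by positivity, fun U hU T hT0 hTU => ?_⟩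
  have hU0 : 0 < U := by linarith
  set δ : ℝ := U ^ (-(52/100):ℝ) with hδd
  have hδ : 0 < δ := by positivity
  have hδ2 : δ ≤ 1/2 := delta_le_half hU
  -- choice of Y
  have hlim : Tendsto (fun Y : ℕ => C' * δ ^ (-(3/2):ℝ) * (Y:ℝ) ^ (-(24/25):ℝ)) atTop (𝓝 0) := by
    have h1 : Tendsto (fun Y : ℕ => (Y:ℝ) ^ (-(24/25):ℝ)) atTop (𝓝 0) :=
      (tendsto_rpow_neg_atTop (by norm_num : (0:ℝ) < 24/25)).comp tendsto_natCast_atTop_atTop
    simpa using h1.const_mul (C' * δ ^ (-(3/2):ℝ))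
  have he0 : 0 < U ^ (-(1/100):ℝ) := by positivity
  obtain ⟨Y, hY1, hY2, hY3⟩ := ((hlim.eventually_le_const he0).and ((eventually_ge_atTop 1).and (eventually_ge_atTop M))).exists
  refine ⟨Y, hY2, hY3.trans (Nat.le_self_pow (by norm_num) Y), ?_⟩
  set e : ℝ := (4 * C0 + 1) * U ^ (-(1/100):ℝ) with he
  have hep : 0 ≤ e := by positivity
  have hup : ∀ r ∈ Set.Icc U (U + T), E r ≤ SS a φ w κ₁ δ Y r + e := by
    intro r hr
    have h1 := hS.up r r δ (hU.trans hr.1) hδ hδ2 (by simpa using hδ.le)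
    have h2 := hT δ hδ (r + κ₁ * δ) Y hY2
    have h3 := er_le hU hr.1 (by linarith [hr.2])
    have h4 := (abs_le.1 h2).2
    have h5 : C0 * er r δ ≤ C0 * (4 * U ^ (-(1/100):ℝ)) := mul_le_mul_of_nonneg_left h3 hC0.le
    have h6 : SS a φ w κ₁ δ Y r = ∑ m ∈ Finset.Icc 1 (Y^2), wt a φ w (r + κ₁ * δ) δ m := rfl
    rw [h6, he]
    linarith
  have hlo : ∀ r ∈ Set.Icc U (U + T), SS a φ w κ₂ δ Y r - e ≤ E r := by
    intro r hr
    have h1 := hS.lo r r δ (hU.trans hr.1) hδ hδ2 (by simpa using hδ.le)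
    have h2 := hT δ hδ (r + κ₂ * δ) Y hY2
    have h3 := er_le hU hr.1 (by linarith [hr.2])
    have h4 := (abs_le.1 h2).1
    have h5 : C0 * er r δ ≤ C0 * (4 * U ^ (-(1/100):ℝ)) := mul_le_mul_of_nonneg_left h3 hC0.le
    have h6 : SS a φ w κ₂ δ Y r = ∑ m ∈ Finset.Icc 1 (Y^2), wt a φ w (r + κ₂ * δ) δ m := rfl
    rw [h6, he]
    linarith
  have hb : ∀ r ∈ Set.Icc U (U + T), |E r - SS a φ w κ₂ δ Y r| ≤ (SS a φ w κ₁ δ Y r - SS a φ w κ₂ δ Y r) + 3 * e := by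
    intro r hr
    have h1 := hup r hr
    have h2 := hlo r hr
    rw [abs_le]
    constructor <;> linarith
  have hc1 := SS_cont a φ w κ₁ δ Y
  have hc2 := SS_cont a φ w κ₂ δ Y
  have hUV : U ≤ U + T := by linarith
  have hI1 : IntervalIntegrable (fun r => |E r - SS a φ w κ₂ δ Y r|) volume U (U + T) :=
    ((hE U (U + T) (by linarith) hUV).sub (hc2.intervalIntegrable _ _)).abs
  have hci : IntervalIntegrable (fun r : ℝ => SS a φ w κ₁ δ Y r - SS a φ w κ₂ δ Y r) volume U (U + T) :=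
    (hc1.sub hc2).intervalIntegrable _ _
  have hck : IntervalIntegrable (fun _ : ℝ => 3 * e) volume U (U + T) := continuous_const.intervalIntegrable _ _
  have h1 := intervalIntegral.integral_mono_on hUV hI1 (hci.add hck) (fun r hr => hb r hr)
  refine h1.trans ?_
  have h2 : ∫ r in U..(U + T), ((SS a φ w κ₁ δ Y r - SS a φ w κ₂ δ Y r) + 3 * e) =
      (∫ r in U..(U + T), SS a φ w κ₁ δ Y r) - (∫ r in U..(U + T), SS a φ w κ₂ δ Y r) + T * (3 * e) := by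
    rw [intervalIntegral.integral_add hci hck,
      intervalIntegral.integral_sub (hc1.intervalIntegrable _ _) (hc2.intervalIntegrable _ _),
      intervalIntegral.integral_const, smul_eq_mul, add_sub_cancel_left]
  have h3 := (abs_le.1 (SS_int (φ := φ) ha hw κ₁ hδ Y U (U + T))).2
  have h4 := (abs_le.1 (SS_int (φ := φ) ha hw κ₂ hδ Y U (U + T))).1
  calc _ = (∫ r in U..(U + T), SS a φ w κ₁ δ Y r) - (∫ r in U..(U + T), SS a φ w κ₂ δ Y r) + T * (3 * e) := h2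
    _ ≤ 2 * Z + T * (3 * e) := by linarith
    _ ≤ (2 * Z + 3 * (4 * C0 + 1)) * (1 + U ^ (-(1/100):ℝ) * T) := by
        have h5 : 0 ≤ U ^ (-(1/100):ℝ) * T := by positivity
        rw [he]
        nlinarith [mul_nonneg hZ0 h5]

/-- the Fourier coefficients of `E` over every window -/
theorem coeff (ha : Bd a) (ha0 : a 0 = 0) (hw : Wt w) {κ₁ κ₂ C0 : ℝ} (hC0 : 0 < C0) (hS : Sand E a φ w κ₁ κ₂ C0)
    (hE : ∀ U V, 1 ≤ U → U ≤ V → IntervalIntegrable E volume U V) {n : ℕ} (hn : 1 ≤ n) :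
    ∃ K : ℝ, 0 < K ∧ ∀ U : ℝ, 4 ≤ U → ∀ T : ℝ, 0 < T → T ≤ U → ∀ ψ : ℝ,
      |(∫ r in U..(U + T), E r * Real.cos (2 * Real.pi * √(n:ℝ) * r - ψ)) - T / 2 * (a n * Real.cos (φ - ψ))| ≤
        K * (1 + U ^ (-(1/100):ℝ) * T) := by
  obtain ⟨K, hK, h⟩ := near ha ha0 hw hC0 hS hE n
  obtain ⟨Cl, hCl, hl⟩ := hw.lip
  set Z := ∑' m : ℕ, |a m| / √(m:ℝ) with hZ
  have hZ0 : 0 ≤ Z := tsum_nonneg fun m => by positivity
  have hpi := Real.pi_pos
  refine ⟨K + ((n + 1) * (1 + √(n:ℝ)) * Z + |a n| + |a n| * √(n:ℝ) * (2 * Real.pi * |κ₂| + Cl)), by positivity,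
    fun U hU T hT0 hTU ψ => ?_⟩
  obtain ⟨Y, hY1, hY2, hY3⟩ := h U hU T hT0 hTU
  have hU0 : 0 < U := by linarith
  have hU1 : 1 ≤ U := by linarith
  set δ : ℝ := U ^ (-(52/100):ℝ) with hδd
  have hδ : 0 < δ := by positivity
  have hδe : δ ≤ U ^ (-(1/100):ℝ) := Real.rpow_le_rpow_of_exponent_le hU1 (by norm_num)
  have hUV : U ≤ U + T := by linarith
  have hc2 := SS_cont a φ w κ₂ δ Y
  have hcc : Continuous fun r : ℝ => Real.cos (2 * Real.pi * √(n:ℝ) * r - ψ) := by fun_prop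
  have h1 := SS_cos (φ := φ) ha hw hCl hl κ₂ hδ hn hY2 ψ hUV
  rw [add_sub_cancel_left] at h1
  have hEI := hE U (U + T) (by linarith) hUV
  have h2 : |(∫ r in U..(U + T), E r * Real.cos (2 * Real.pi * √(n:ℝ) * r - ψ)) -
      ∫ r in U..(U + T), SS a φ w κ₂ δ Y r * Real.cos (2 * Real.pi * √(n:ℝ) * r - ψ)| ≤ K * (1 + U ^ (-(1/100):ℝ) * T) := by
    have hEc : IntervalIntegrable (fun r => E r * Real.cos (2 * Real.pi * √(n:ℝ) * r - ψ)) volume U (U + T) :=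
      hEI.mul_continuousOn hcc.continuousOn
    have hSc : IntervalIntegrable (fun r => SS a φ w κ₂ δ Y r * Real.cos (2 * Real.pi * √(n:ℝ) * r - ψ)) volume U (U + T) :=
      (hc2.mul hcc).intervalIntegrable _ _
    rw [← intervalIntegral.integral_sub hEc hSc]
    have hI1 : IntervalIntegrable (fun r => |E r - SS a φ w κ₂ δ Y r|) volume U (U + T) :=
      (hEI.sub (hc2.intervalIntegrable _ _)).abs
    refine (intervalIntegral.abs_integral_le_integral_abs hUV).trans (le_trans ?_ hY3)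
    refine intervalIntegral.integral_mono_on hUV ((hEc.sub hSc).abs) hI1 fun r _ => ?_
    show |E r * Real.cos (2 * Real.pi * √(n:ℝ) * r - ψ) - SS a φ w κ₂ δ Y r * Real.cos (2 * Real.pi * √(n:ℝ) * r - ψ)| ≤ _
    rw [← sub_mul, abs_mul]
    exact mul_le_of_le_one_right (abs_nonneg _) (Real.abs_cos_le_one _)
  set X := ∫ r in U..(U + T), E r * Real.cos (2 * Real.pi * √(n:ℝ) * r - ψ)
  set X' := ∫ r in U..(U + T), SS a φ w κ₂ δ Y r * Real.cos (2 * Real.pi * √(n:ℝ) * r - ψ)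
  have e : X - T / 2 * (a n * Real.cos (φ - ψ)) = (X - X') + (X' - T / 2 * (a n * Real.cos (φ - ψ))) := by ring
  rw [e]
  refine ((abs_add_le _ _).trans (add_le_add h2 h1)).trans ?_
  have h5 : 0 ≤ U ^ (-(1/100):ℝ) * T := by positivity
  set c1 : ℝ := (n + 1) * (1 + √(n:ℝ)) * Z with hc1
  set c2 : ℝ := |a n| * √(n:ℝ) * (2 * Real.pi * |κ₂| + Cl) with hc2
  have hc10 : 0 ≤ c1 := by positivity
  have hc20 : 0 ≤ c2 := by positivity
  have h6 : T * (c2 * δ) ≤ c2 * (U ^ (-(1/100):ℝ) * T) := by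
    have : T * (c2 * δ) = c2 * (δ * T) := by ring
    rw [this]
    exact mul_le_mul_of_nonneg_left (mul_le_mul_of_nonneg_right hδe hT0.le) hc20
  have han := abs_nonneg (a n)
  nlinarith [mul_nonneg hc10 h5, mul_nonneg han h5]

end

end Pool.Agent.Q212.GC
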