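import Pool.Agent.Q212.GC.B

/-!
# Other frequencies
-/

open MeasureTheory Filter Topology
open Pool.Agent.H383.GW Pool.Agent.H383.Gen

set_option linter.unusedSectionVars false
set_option linter.unusedVariables false
set_option autoImplicit false

namespace Pool.Agent.Q212.GC

noncomputable section

variable {a : ℕ → ℝ} {φ : ℝ} {w : ℝ → ℂ} {E : ℝ → ℝ}

theorem gap0 {lam : ℝ} (hlam : 0 ≤ lam) (h : ∀ n : ℕ, 1 ≤ n → lam ≠ √(n:ℝ)) :
    ∃ G : ℝ, 0 < G ∧ ∀ m : ℕ, 1 ≤ m → 1 / |√(m:ℝ) - lam| ≤ G / √(m:ℝ) := by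
  obtain ⟨N, hN⟩ := exists_nat_ge ((2 * lam) ^ 2)
  have h0 : 0 ≤ ∑ m ∈ Finset.Icc 1 N, √(m:ℝ) / |√(m:ℝ) - lam| := Finset.sum_nonneg fun m _ => by positivity
  refine ⟨(∑ m ∈ Finset.Icc 1 N, √(m:ℝ) / |√(m:ℝ) - lam|) + 2, by linarith, fun m hm => ?_⟩
  have hm0 : (1:ℝ) ≤ m := by exact_mod_cast hm
  have hs : 1 ≤ √(m:ℝ) := Real.one_le_sqrt.2 hm0
  have hne : 0 < |√(m:ℝ) - lam| := abs_pos.2 (sub_ne_zero.2 (h m hm).symm)
  rw [div_le_div_iff₀ hne (by positivity), one_mul, ← div_le_iff₀ hne]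
  rcases le_or_gt m N with hmN | hmN
  · have h1 := Finset.single_le_sum (f := fun m : ℕ => √(m:ℝ) / |√(m:ℝ) - lam|) (fun m _ => by positivity)
      (Finset.mem_Icc.2 ⟨hm, hmN⟩)
    linarith
  · have h1 : 2 * lam ≤ √(m:ℝ) := by
      refine Real.le_sqrt_of_sq_le (hN.trans ?_)
      exact_mod_cast hmN.le
    have h2 : √(m:ℝ) / |√(m:ℝ) - lam| ≤ 2 := by
      rw [div_le_iff₀ hne, abs_of_nonneg (by linarith)]
      linarith
    linarith

theorem term_gen (hw : Wt w) (κ : ℝ) {δ : ℝ} (hδ : 0 < δ) {m : ℕ} (hm : 1 ≤ m) {lam G : ℝ} (hlam : 0 ≤ lam)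
    (hne : lam ≠ √(m:ℝ)) (hG : 1 / |√(m:ℝ) - lam| ≤ G / √(m:ℝ)) (ψ U V : ℝ) :
    |∫ r in U..V, wt a φ w (r + κ * δ) δ m * Real.cos (2 * Real.pi * lam * r - ψ)| ≤ G * (|a m| / √(m:ℝ)) := by
  have hm0 : (1:ℝ) ≤ m := by exact_mod_cast hm
  have hs : 1 ≤ √(m:ℝ) := Real.one_le_sqrt.2 hm0
  have hpi := Real.pi_gt_three
  obtain ⟨A, β, h, hA, -⟩ := wt_cos (a := a) (φ := φ) (w := w) κ δ m
  simp_rw [h]
  have e1 : ∀ r : ℝ, A * Real.cos (2 * Real.pi * √(m:ℝ) * r + β) * Real.cos (2 * Real.pi * lam * r - ψ) =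
      A * (Real.cos (2 * Real.pi * √(m:ℝ) * r + β) * Real.cos (2 * Real.pi * lam * r + -ψ)) := by
    intro r; rw [mul_assoc, ← sub_eq_add_neg]
  simp_rw [e1]
  rw [intervalIntegral.integral_const_mul, abs_mul]
  have hA' : |A| ≤ |a m| := by
    rw [hA, abs_mul, abs_of_nonneg (norm_nonneg _)]
    exact mul_le_of_le_one_right (abs_nonneg _) (hw.one _ (by positivity))
  have hpne : 2 * Real.pi * √(m:ℝ) ≠ 2 * Real.pi * lam := fun h1 => hne (mul_left_cancel₀ (by positivity) h1).symm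
  have h1 := cos_cos (p := 2 * Real.pi * √(m:ℝ)) (q := 2 * Real.pi * lam) (by positivity) (by positivity) hpne β (-ψ) U V
  have h4 : 0 < |√(m:ℝ) - lam| := abs_pos.2 (sub_ne_zero.2 hne.symm)
  have h2 : 2 / |2 * Real.pi * √(m:ℝ) - 2 * Real.pi * lam| ≤ G / √(m:ℝ) := by
    rw [← mul_sub, abs_mul, abs_of_pos (by positivity : 0 < 2 * Real.pi)]
    refine le_trans ?_ hG
    rw [div_le_div_iff₀ (by positivity) h4]
    nlinarith
  calc |A| * |∫ r in U..V, Real.cos (2 * Real.pi * √(m:ℝ) * r + β) * Real.cos (2 * Real.pi * lam * r + -ψ)| ≤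
      |a m| * (G / √(m:ℝ)) := mul_le_mul hA' (h1.trans h2) (abs_nonneg _) (abs_nonneg _)
    _ = _ := by ring

theorem SS_gen (ha : Bd a) (hw : Wt w) (κ : ℝ) {δ : ℝ} (hδ : 0 < δ) (Y : ℕ) {lam G : ℝ} (hlam : 0 ≤ lam) (hG0 : 0 < G)
    (hne : ∀ n : ℕ, 1 ≤ n → lam ≠ √(n:ℝ)) (hG : ∀ m : ℕ, 1 ≤ m → 1 / |√(m:ℝ) - lam| ≤ G / √(m:ℝ)) (ψ U V : ℝ) :
    |∫ r in U..V, SS a φ w κ δ Y r * Real.cos (2 * Real.pi * lam * r - ψ)| ≤ G * ∑' m : ℕ, |a m| / √(m:ℝ) := by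
  unfold SS
  simp_rw [Finset.sum_mul]
  have hcc : Continuous fun r : ℝ => Real.cos (2 * Real.pi * lam * r - ψ) := by fun_prop
  have hci : ∀ m ∈ Finset.Icc 1 (Y^2), IntervalIntegrable
      (fun r : ℝ => wt a φ w (r + κ * δ) δ m * Real.cos (2 * Real.pi * lam * r - ψ)) volume U V :=
    fun m _ => ((wt_cont a φ w κ δ m).mul hcc).intervalIntegrable _ _
  rw [intervalIntegral.integral_finsetSum hci]
  refine (Finset.abs_sum_le_sum_abs _ _).trans ?_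
  refine (Finset.sum_le_sum fun m hm => term_gen hw κ hδ (Finset.mem_Icc.1 hm).1 hlam
    (hne m (Finset.mem_Icc.1 hm).1) (hG m (Finset.mem_Icc.1 hm).1) ψ U V).trans ?_
  rw [← Finset.mul_sum]
  refine mul_le_mul_of_nonneg_left ?_ hG0.le
  exact (summable_inv ha).sum_le_tsum _ fun m _ => by positivity

/-- the Fourier coefficients of `E` at other frequencies over every window -/
theorem coeff_gen (ha : Bd a) (ha0 : a 0 = 0) (hw : Wt w) {κ₁ κ₂ C0 : ℝ} (hC0 : 0 < C0) (hS : Sand E a φ w κ₁ κ₂ C0)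
    (hE : ∀ U V, 1 ≤ U → U ≤ V → IntervalIntegrable E volume U V) {lam : ℝ} (hlam : 0 ≤ lam)
    (hne : ∀ n : ℕ, 1 ≤ n → lam ≠ √(n:ℝ)) :
    ∃ K : ℝ, 0 < K ∧ ∀ U : ℝ, 4 ≤ U → ∀ T : ℝ, 0 < T → T ≤ U → ∀ ψ : ℝ,
      |∫ r in U..(U + T), E r * Real.cos (2 * Real.pi * lam * r - ψ)| ≤ K * (1 + U ^ (-(1/100):ℝ) * T) := by
  obtain ⟨K, hK, h⟩ := near ha ha0 hw hC0 hS hE 0
  obtain ⟨G, hG0, hG⟩ := gap0 hlam hne
  set Z := ∑' m : ℕ, |a m| / √(m:ℝ) with hZ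
  have hZ0 : 0 ≤ Z := tsum_nonneg fun m => by positivity
  refine ⟨K + G * Z, by positivity, fun U hU T hT0 hTU ψ => ?_⟩
  obtain ⟨Y, hY1, hY2, hY3⟩ := h U hU T hT0 hTU
  have hU0 : 0 < U := by linarith
  set δ : ℝ := U ^ (-(52/100):ℝ) with hδd
  have hδ : 0 < δ := by positivity
  have hUV : U ≤ U + T := by linarith
  have hc2 := SS_cont a φ w κ₂ δ Y
  have hcc : Continuous fun r : ℝ => Real.cos (2 * Real.pi * lam * r - ψ) := by fun_prop
  have h1 := SS_gen (φ := φ) ha hw κ₂ hδ Y hlam hG0 hne hG ψ U (U + T)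
  have hEI := hE U (U + T) (by linarith) hUV
  have h2 : |(∫ r in U..(U + T), E r * Real.cos (2 * Real.pi * lam * r - ψ)) -
      ∫ r in U..(U + T), SS a φ w κ₂ δ Y r * Real.cos (2 * Real.pi * lam * r - ψ)| ≤ K * (1 + U ^ (-(1/100):ℝ) * T) := by
    have hEc : IntervalIntegrable (fun r => E r * Real.cos (2 * Real.pi * lam * r - ψ)) volume U (U + T) :=
      hEI.mul_continuousOn hcc.continuousOn
    have hSc : IntervalIntegrable (fun r => SS a φ w κ₂ δ Y r * Real.cos (2 * Real.pi * lam * r - ψ)) volume U (U + T) :=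
      (hc2.mul hcc).intervalIntegrable _ _
    rw [← intervalIntegral.integral_sub hEc hSc]
    have hI1 : IntervalIntegrable (fun r => |E r - SS a φ w κ₂ δ Y r|) volume U (U + T) :=
      (hEI.sub (hc2.intervalIntegrable _ _)).abs
    refine (intervalIntegral.abs_integral_le_integral_abs hUV).trans (le_trans ?_ hY3)
    refine intervalIntegral.integral_mono_on hUV ((hEc.sub hSc).abs) hI1 fun r _ => ?_
    show |E r * Real.cos (2 * Real.pi * lam * r - ψ) - SS a φ w κ₂ δ Y r * Real.cos (2 * Real.pi * lam * r - ψ)| ≤ _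
    rw [← sub_mul, abs_mul]
    exact mul_le_of_le_one_right (abs_nonneg _) (Real.abs_cos_le_one _)
  set X := ∫ r in U..(U + T), E r * Real.cos (2 * Real.pi * lam * r - ψ)
  set X' := ∫ r in U..(U + T), SS a φ w κ₂ δ Y r * Real.cos (2 * Real.pi * lam * r - ψ)
  have e : X = (X - X') + X' := by ring
  rw [e]
  refine ((abs_add_le _ _).trans (add_le_add h2 h1)).trans ?_
  have h5 : 0 ≤ U ^ (-(1/100):ℝ) * T := by positivity
  nlinarith [mul_nonneg (mul_nonneg hG0.le hZ0) h5]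

end

end Pool.Agent.Q212.GC
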