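import Pool.Agent.Q212.GC.B

/-!
# Mean squares over every window
-/

open MeasureTheory Filter Topology
open Pool.Agent.H383.GW Pool.Agent.H383.Gen

set_option linter.unusedSectionVars false
set_option linter.unusedVariables false
set_option autoImplicit false

namespace Pool.Agent.Q212.GC

noncomputable section

variable {a : ℕ → ℝ} {φ : ℝ} {w : ℝ → ℂ} {E : ℝ → ℝ}

/-- a trigonometric polynomial -/
def Qp (a : ℕ → ℝ) (φ : ℝ) (M : ℕ) (r : ℝ) : ℝ := ∑ n ∈ Finset.Icc 1 M, a n * Real.cos (2 * Real.pi * √(n:ℝ) * r - φ)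

theorem Qp_cont (a : ℕ → ℝ) (φ : ℝ) (M : ℕ) : Continuous (Qp a φ M) := by
  unfold Qp
  fun_prop

/-- its mean square -/
theorem Qp_sq (a : ℕ → ℝ) (φ : ℝ) (M : ℕ) : ∃ K : ℝ, 0 < K ∧ ∀ U V : ℝ, U ≤ V →
    ∫ r in U..V, (Qp a φ M r) ^ 2 ≤ (V - U) / 2 * (∑ n ∈ Finset.Icc 1 M, (a n) ^ 2) + K := by
  have hpi := Real.pi_gt_three
  have key : ∀ m n : ℕ, ∃ D : ℝ, 0 ≤ D ∧ (1 ≤ m → 1 ≤ n → ∀ U V : ℝ, U ≤ V →
      |(∫ r in U..V, Real.cos (2 * Real.pi * √(m:ℝ) * r + -φ) * Real.cos (2 * Real.pi * √(n:ℝ) * r + -φ)) -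
        (if m = n then (V - U) / 2 else 0)| ≤ D) := by
    intro m n
    by_cases hmn : m = n
    · subst hmn
      refine ⟨1, by norm_num, fun hm _ U V hUV => ?_⟩
      have hm0 : (1:ℝ) ≤ m := by exact_mod_cast hm
      have hs : 1 ≤ √(m:ℝ) := Real.one_le_sqrt.2 hm0
      have h1 := cos_same (p := 2 * Real.pi * √(m:ℝ)) (by positivity) (-φ) (-φ) U V
      rw [sub_self, Real.cos_zero, mul_one] at h1
      rw [if_pos rfl]
      refine h1.trans ?_
      rw [div_le_one (by positivity)]; nlinarith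
    · refine ⟨2 / |2 * Real.pi * √(m:ℝ) - 2 * Real.pi * √(n:ℝ)|, by positivity, fun hm hn U V hUV => ?_⟩
      have hm0 : (1:ℝ) ≤ m := by exact_mod_cast hm
      have hn0 : (1:ℝ) ≤ n := by exact_mod_cast hn
      have hs : 1 ≤ √(m:ℝ) := Real.one_le_sqrt.2 hm0
      have hsn : 1 ≤ √(n:ℝ) := Real.one_le_sqrt.2 hn0
      have hne : √(m:ℝ) ≠ √(n:ℝ) := by
        intro h1
        rw [Real.sqrt_inj (by positivity) (by positivity)] at h1
        exact hmn (by exact_mod_cast h1)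
      have hpne : 2 * Real.pi * √(m:ℝ) ≠ 2 * Real.pi * √(n:ℝ) := fun h1 => hne (mul_left_cancel₀ (by positivity) h1)
      rw [if_neg hmn, sub_zero]
      exact cos_cos (p := 2 * Real.pi * √(m:ℝ)) (q := 2 * Real.pi * √(n:ℝ)) (by positivity) (by positivity) hpne (-φ) (-φ) U V
  choose D hD0 hD using key
  refine ⟨(∑ m ∈ Finset.Icc 1 M, ∑ n ∈ Finset.Icc 1 M, |a m| * |a n| * D m n) + 1, ?_, fun U V hUV => ?_⟩
  · have : 0 ≤ ∑ m ∈ Finset.Icc 1 M, ∑ n ∈ Finset.Icc 1 M, |a m| * |a n| * D m n :=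
      Finset.sum_nonneg fun m _ => Finset.sum_nonneg fun n _ => by have := hD0 m n; positivity
    linarith
  · have h1 : ∀ r : ℝ, (Qp a φ M r) ^ 2 = ∑ m ∈ Finset.Icc 1 M, ∑ n ∈ Finset.Icc 1 M,
        (a m * a n) * (Real.cos (2 * Real.pi * √(m:ℝ) * r + -φ) * Real.cos (2 * Real.pi * √(n:ℝ) * r + -φ)) := by
      intro r
      unfold Qp
      rw [sq, Finset.sum_mul_sum]
      refine Finset.sum_congr rfl fun m _ => Finset.sum_congr rfl fun n _ => ?_
      rw [← sub_eq_add_neg, ← sub_eq_add_neg]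
      ring
    simp_rw [h1]
    have hc : ∀ m n : ℕ, Continuous fun r : ℝ => (a m * a n) * (Real.cos (2 * Real.pi * √(m:ℝ) * r + -φ) * Real.cos (2 * Real.pi * √(n:ℝ) * r + -φ)) := by
      intro m n; fun_prop
    have hcs : ∀ m : ℕ, Continuous fun r : ℝ => ∑ n ∈ Finset.Icc 1 M, (a m * a n) * (Real.cos (2 * Real.pi * √(m:ℝ) * r + -φ) * Real.cos (2 * Real.pi * √(n:ℝ) * r + -φ)) := by
      intro m; fun_prop
    rw [intervalIntegral.integral_finsetSum fun m _ => (hcs m).intervalIntegrable _ _]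
    have h2 : ∀ m ∈ Finset.Icc 1 M, (∫ r in U..V, ∑ n ∈ Finset.Icc 1 M, (a m * a n) * (Real.cos (2 * Real.pi * √(m:ℝ) * r + -φ) * Real.cos (2 * Real.pi * √(n:ℝ) * r + -φ))) ≤
        (V - U) / 2 * (a m) ^ 2 + ∑ n ∈ Finset.Icc 1 M, |a m| * |a n| * D m n := by
      intro m hm
      have hm1 := (Finset.mem_Icc.1 hm).1
      rw [intervalIntegral.integral_finsetSum fun n _ => (hc m n).intervalIntegrable _ _]
      have h3 : (V - U) / 2 * (a m) ^ 2 = ∑ n ∈ Finset.Icc 1 M, (a m * a n) * (if m = n then (V - U) / 2 else 0) := by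
        rw [Finset.sum_eq_single_of_mem m hm]
        · rw [if_pos rfl]; ring
        · intro n _ hnm
          rw [if_neg (Ne.symm hnm), mul_zero]
      rw [h3, ← Finset.sum_add_distrib]
      refine Finset.sum_le_sum fun n hn => ?_
      have hn1 := (Finset.mem_Icc.1 hn).1
      rw [intervalIntegral.integral_const_mul]
      have h4 := hD m n hm1 hn1 U V hUV
      set I := ∫ r in U..V, Real.cos (2 * Real.pi * √(m:ℝ) * r + -φ) * Real.cos (2 * Real.pi * √(n:ℝ) * r + -φ)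
      have h5 : a m * a n * (I - (if m = n then (V - U) / 2 else 0)) ≤ |a m| * |a n| * D m n := by
        refine (le_abs_self _).trans ?_
        rw [abs_mul, abs_mul]
        exact mul_le_mul_of_nonneg_left h4 (by positivity)
      linarith
    refine (Finset.sum_le_sum h2).trans ?_
    rw [Finset.sum_add_distrib, ← Finset.mul_sum]
    linarith

/-- the mean square over every window is at least the mean square of the partial sums -/
theorem ms (ha : Bd a) (ha0 : a 0 = 0) (hw : Wt w) {κ₁ κ₂ C0 : ℝ} (hC0 : 0 < C0) (hS : Sand E a φ w κ₁ κ₂ C0)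
    (hE : ∀ U V, 1 ≤ U → U ≤ V → IntervalIntegrable E volume U V)
    (hE2 : ∀ U V, 1 ≤ U → U ≤ V → IntervalIntegrable (fun r => E r ^ 2) volume U V) (M : ℕ) :
    ∃ K : ℝ, 0 < K ∧ ∀ U : ℝ, 4 ≤ U → ∀ T : ℝ, 0 < T → T ≤ U →
      T / 2 * (∑ n ∈ Finset.Icc 1 M, (a n) ^ 2) - K * (1 + U ^ (-(1/100):ℝ) * T) ≤ ∫ r in U..(U + T), E r ^ 2 := by
  have key : ∀ n : ℕ, ∃ K : ℝ, 0 < K ∧ (1 ≤ n → ∀ U : ℝ, 4 ≤ U → ∀ T : ℝ, 0 < T → T ≤ U →
      |(∫ r in U..(U + T), E r * Real.cos (2 * Real.pi * √(n:ℝ) * r - φ)) - T / 2 * a n| ≤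
        K * (1 + U ^ (-(1/100):ℝ) * T)) := by
    intro n
    by_cases hn : 1 ≤ n
    · obtain ⟨K, hK, h⟩ := coeff ha ha0 hw hC0 hS hE hn
      refine ⟨K, hK, fun _ U hU T hT0 hTU => ?_⟩
      have := h U hU T hT0 hTU φ
      rwa [sub_self, Real.cos_zero, mul_one] at this
    · exact ⟨1, one_pos, fun h => absurd h hn⟩
  choose K hK0 hK using key
  obtain ⟨K2, hK20, hK2⟩ := Qp_sq a φ M
  have hs0 : 0 ≤ ∑ n ∈ Finset.Icc 1 M, |a n| * K n := Finset.sum_nonneg fun n _ => by have := hK0 n; positivity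
  refine ⟨2 * (∑ n ∈ Finset.Icc 1 M, |a n| * K n) + K2, by positivity, fun U hU T hT0 hTU => ?_⟩
  have hUV : U ≤ U + T := by linarith
  have hU0 : 0 < U := by linarith
  have hc := Qp_cont a φ M
  have hEI := hE U (U + T) (by linarith) hUV
  have hEQ : IntervalIntegrable (fun r => E r * Qp a φ M r) volume U (U + T) := hEI.mul_continuousOn hc.continuousOn
  have hQ2 : IntervalIntegrable (fun r => (Qp a φ M r) ^ 2) volume U (U + T) := (hc.pow 2).intervalIntegrable _ _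
  have h1 : ∫ r in U..(U + T), (2 * (E r * Qp a φ M r) - (Qp a φ M r) ^ 2) ≤ ∫ r in U..(U + T), E r ^ 2 := by
    refine intervalIntegral.integral_mono_on hUV ((hEQ.const_mul 2).sub hQ2) (hE2 U (U + T) (by linarith) hUV) fun r _ => ?_
    nlinarith [sq_nonneg (E r - Qp a φ M r)]
  have h2 : ∫ r in U..(U + T), (2 * (E r * Qp a φ M r) - (Qp a φ M r) ^ 2) =
      2 * (∫ r in U..(U + T), E r * Qp a φ M r) - ∫ r in U..(U + T), (Qp a φ M r) ^ 2 := by
    rw [intervalIntegral.integral_sub (hEQ.const_mul 2) hQ2, intervalIntegral.integral_const_mul]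
  have h3 := hK2 U (U + T) hUV
  rw [add_sub_cancel_left] at h3
  have h4 : ∫ r in U..(U + T), E r * Qp a φ M r = ∑ n ∈ Finset.Icc 1 M, a n * ∫ r in U..(U + T), E r * Real.cos (2 * Real.pi * √(n:ℝ) * r - φ) := by
    have h5 : ∀ r : ℝ, E r * Qp a φ M r = ∑ n ∈ Finset.Icc 1 M, a n * (E r * Real.cos (2 * Real.pi * √(n:ℝ) * r - φ)) := by
      intro r
      unfold Qp
      rw [Finset.mul_sum]
      exact Finset.sum_congr rfl fun n _ => by ring
    simp_rw [h5]
    have hci : ∀ n ∈ Finset.Icc 1 M, IntervalIntegrable (fun r => a n * (E r * Real.cos (2 * Real.pi * √(n:ℝ) * r - φ))) volume U (U + T) :=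
      fun n _ => (hEI.mul_continuousOn (by fun_prop)).const_mul _
    rw [intervalIntegral.integral_finsetSum hci]
    exact Finset.sum_congr rfl fun n _ => intervalIntegral.integral_const_mul _ _
  have h6 : T / 2 * (∑ n ∈ Finset.Icc 1 M, (a n) ^ 2) - (∑ n ∈ Finset.Icc 1 M, |a n| * K n) * (1 + U ^ (-(1/100):ℝ) * T) ≤
      ∫ r in U..(U + T), E r * Qp a φ M r := by
    rw [h4, Finset.mul_sum, Finset.sum_mul, ← Finset.sum_sub_distrib]
    refine Finset.sum_le_sum fun n hn => ?_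
    have h7 := hK n (Finset.mem_Icc.1 hn).1 U hU T hT0 hTU
    set I := ∫ r in U..(U + T), E r * Real.cos (2 * Real.pi * √(n:ℝ) * r - φ)
    have h8 : -(|a n| * (K n * (1 + U ^ (-(1/100):ℝ) * T))) ≤ a n * (I - T / 2 * a n) := by
      have h9 : |a n * (I - T / 2 * a n)| ≤ |a n| * (K n * (1 + U ^ (-(1/100):ℝ) * T)) := by
        rw [abs_mul]
        exact mul_le_mul_of_nonneg_left h7 (abs_nonneg _)
      exact (abs_le.1 h9).1
    nlinarith
  have h9 : 0 ≤ U ^ (-(1/100):ℝ) * T := by positivity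
  rw [h2] at h1
  nlinarith [mul_nonneg hK20.le h9]

/-- a lower bound for the mean square over all windows from a fixed length on -/
theorem window_of (hE2 : ∀ U V, 1 ≤ U → U ≤ V → IntervalIntegrable (fun r => E r ^ 2) volume U V)
    {S : ℝ} (h : ∀ c : ℝ, c < S → ∃ T₀ U₀ : ℝ, 0 < T₀ ∧ 1 ≤ U₀ ∧ ∀ U : ℝ, U₀ ≤ U → c * T₀ ≤ ∫ r in U..(U + T₀), E r ^ 2) :
    ∀ c : ℝ, c < S → ∃ T₁ : ℝ, ∀ U T : ℝ, 1 ≤ U → T₁ ≤ T → c * T ≤ ∫ r in U..(U + T), E r ^ 2 := by
  intro c hc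
  rcases le_or_gt c 0 with hc0 | hc0
  · refine ⟨0, fun U T hU hT => ?_⟩
    have h1 : 0 ≤ ∫ r in U..(U + T), E r ^ 2 := intervalIntegral.integral_nonneg (by linarith) fun r _ => sq_nonneg _
    nlinarith
  obtain ⟨c', hcc, hc'S⟩ := exists_between hc
  obtain ⟨T₀, U₀, hT₀, hU₀, h1⟩ := h c' hc'S
  have hstep : ∀ N : ℕ, ∀ U : ℝ, U₀ ≤ U → c' * (N * T₀) ≤ ∫ r in U..(U + N * T₀), E r ^ 2 := by
    intro N
    induction N with
    | zero => intro U _; simp
    | succ N ih =>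
      intro U hU
      have h2 := ih U hU
      have h3 := h1 (U + N * T₀) (by have : 0 ≤ (N:ℝ) * T₀ := by positivity
                                     linarith)
      have hNT : 0 ≤ (N:ℝ) * T₀ := by positivity
      have e : U + ((N + 1 : ℕ):ℝ) * T₀ = U + N * T₀ + T₀ := by push_cast; ring
      rw [e, ← intervalIntegral.integral_add_adjacent_intervals (hE2 U (U + N * T₀) (by linarith) (by linarith))
        (hE2 (U + N * T₀) (U + N * T₀ + T₀) (by linarith) (by linarith))]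
      push_cast
      linarith
  refine ⟨c' * (U₀ + T₀) / (c' - c) + U₀, fun U T hU hT => ?_⟩
  have hcc0 : 0 < c' - c := by linarith
  have hc'0 : 0 < c' := by linarith
  have hq : 0 ≤ c' * (U₀ + T₀) / (c' - c) := by positivity
  have hTU : U₀ ≤ T := by linarith
  set W := max U U₀ with hW
  have hWU : U ≤ W := le_max_left _ _
  have hWU0 : U₀ ≤ W := le_max_right _ _
  have hW2 : W ≤ U + U₀ := max_le (by linarith) (by linarith)
  have hWT : W ≤ U + T := by linarith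
  set N := ⌊(U + T - W) / T₀⌋₊ with hN
  have hNle : (N:ℝ) * T₀ ≤ U + T - W := by
    have := Nat.floor_le (div_nonneg (by linarith : 0 ≤ U + T - W) hT₀.le)
    rwa [le_div_iff₀ hT₀] at this
  have hNlt : U + T - W < (N + 1) * T₀ := by
    have := Nat.lt_floor_add_one ((U + T - W) / T₀)
    rwa [div_lt_iff₀ hT₀] at this
  have hNT : 0 ≤ (N:ℝ) * T₀ := by positivity
  have h2 := hstep N W hWU0
  have h3 : ∫ r in W..(W + N * T₀), E r ^ 2 ≤ ∫ r in U..(U + T), E r ^ 2 := by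
    refine intervalIntegral.integral_mono_interval hWU (by linarith) (by linarith) ?_ (hE2 U (U + T) hU (by linarith))
    exact Filter.Eventually.of_forall fun r => sq_nonneg _
  refine le_trans ?_ (h2.trans h3)
  have h4 : T - U₀ - T₀ ≤ N * T₀ := by nlinarith
  have h5 : c' * (U₀ + T₀) ≤ T * (c' - c) := by
    rw [← div_le_iff₀ hcc0]
    linarith
  nlinarith

/-- the mean square over every window -/
theorem ms_window (ha : Bd a) (ha0 : a 0 = 0) (hw : Wt w) {κ₁ κ₂ C0 : ℝ} (hC0 : 0 < C0) (hS : Sand E a φ w κ₁ κ₂ C0)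
    (hE : ∀ U V, 1 ≤ U → U ≤ V → IntervalIntegrable E volume U V)
    (hE2 : ∀ U V, 1 ≤ U → U ≤ V → IntervalIntegrable (fun r => E r ^ 2) volume U V)
    (hsum : Summable fun n : ℕ => (a n) ^ 2) :
    ∀ c : ℝ, c < (∑' n : ℕ, (a n) ^ 2) / 2 → ∃ T₁ : ℝ, ∀ U T : ℝ, 1 ≤ U → T₁ ≤ T → c * T ≤ ∫ r in U..(U + T), E r ^ 2 := by
  refine window_of hE2 fun c hc => ?_
  have h1 : Tendsto (fun M : ℕ => (∑ n ∈ Finset.Icc 1 M, (a n) ^ 2) / 2) atTop (𝓝 ((∑' n : ℕ, (a n) ^ 2) / 2)) := by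
    have h2 := (hsum.hasSum.tendsto_sum_nat.comp (tendsto_add_atTop_nat 1)).div_const 2
    refine h2.congr fun M => ?_
    simp only [Function.comp]
    have h4 : Finset.range (M+1) = insert 0 (Finset.Icc 1 M) := by
      ext m; simp only [Finset.mem_range, Finset.mem_insert, Finset.mem_Icc]; omega
    rw [h4, Finset.sum_insert (by simp), ha0]
    norm_num
  obtain ⟨M, hM⟩ := (h1.eventually_const_lt hc).exists
  obtain ⟨K, hK, h⟩ := ms ha ha0 hw hC0 hS hE hE2 M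
  set c' := (∑ n ∈ Finset.Icc 1 M, (a n) ^ 2) / 2 with hc'
  have hg : 0 < c' - c := by linarith
  have h2 : Tendsto (fun U : ℝ => K * U ^ (-(1/100):ℝ)) atTop (𝓝 0) := by
    simpa using (tendsto_rpow_neg_atTop (by norm_num : (0:ℝ) < 1/100)).const_mul K
  obtain ⟨U₀, hU₀⟩ := ((h2.eventually_le_const (by positivity : 0 < (c' - c) / 2)).and
    (eventually_ge_atTop (4 + 2 * K / (c' - c)))).exists_forall_of_atTop
  have hq : 0 < 2 * K / (c' - c) := by positivity
  refine ⟨2 * K / (c' - c), max U₀ 1, hq, le_max_right _ _, fun U hU => ?_⟩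
  obtain ⟨h3, h4⟩ := hU₀ U ((le_max_left _ _).trans hU)
  have h5 := h U (by linarith) (2 * K / (c' - c)) hq (by linarith)
  refine le_trans ?_ h5
  set T := 2 * K / (c' - c) with hT
  have h6 : T * (c' - c) = 2 * K := by rw [hT]; field_simp
  have h7 : T / 2 * (∑ n ∈ Finset.Icc 1 M, (a n) ^ 2) = T * c' := by rw [hc']; ring
  rw [h7]
  have h8 : K * U ^ (-(1/100):ℝ) * T ≤ (c' - c) / 2 * T := mul_le_mul_of_nonneg_right h3 hq.le
  nlinarith

end

end Pool.Agent.Q212.GC
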