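import Pool.Agent.Q212.GC.B2

/-!
# Positive and negative part in every window
-/

open MeasureTheory Filter Topology
open Pool.Agent.H383.GW Pool.Agent.H383.Gen

set_option linter.unusedSectionVars false
set_option linter.unusedVariables false
set_option autoImplicit false

namespace Pool.Agent.Q212.GC

noncomputable section

variable {a : ℕ → ℝ} {φ : ℝ} {w : ℝ → ℂ} {E : ℝ → ℝ}

/-- a lower bound for the mean over all windows from a fixed length on -/
theorem window_gen {g : ℝ → ℝ} (hg : ∀ r, 0 ≤ g r) (hE2 : ∀ U V, 1 ≤ U → U ≤ V → IntervalIntegrable g volume U V)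
    {S : ℝ} (h : ∀ c : ℝ, c < S → ∃ T₀ U₀ : ℝ, 0 < T₀ ∧ 1 ≤ U₀ ∧ ∀ U : ℝ, U₀ ≤ U → c * T₀ ≤ ∫ r in U..(U + T₀), g r) :
    ∀ c : ℝ, c < S → ∃ T₁ : ℝ, ∀ U T : ℝ, 1 ≤ U → T₁ ≤ T → c * T ≤ ∫ r in U..(U + T), g r := by
  intro c hc
  rcases le_or_gt c 0 with hc0 | hc0
  · refine ⟨0, fun U T hU hT => ?_⟩
    have h1 : 0 ≤ ∫ r in U..(U + T), g r := intervalIntegral.integral_nonneg (by linarith) fun r _ => hg r
    nlinarith
  obtain ⟨c', hcc, hc'S⟩ := exists_between hc
  obtain ⟨T₀, U₀, hT₀, hU₀, h1⟩ := h c' hc'S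
  have hstep : ∀ N : ℕ, ∀ U : ℝ, U₀ ≤ U → c' * (N * T₀) ≤ ∫ r in U..(U + N * T₀), g r := by
    intro N
    induction N with
    | zero => intro U _; simp
    | succ N ih =>
      intro U hU
      have h2 := ih U hU
      have h3 := h1 (U + N * T₀) (by have : 0 ≤ (N:ℝ) * T₀ := by positivity
                                     linarith)
      have hNT : 0 ≤ (N:ℝ) * T₀ := by positivity
      have e : U + ((N + 1 : ℕ):ℝ) * T₀ = U + N * T₀ + T₀ := by push_cast; ring
      rw [e, ← intervalIntegral.integral_add_adjacent_intervals (hE2 U (U + N * T₀) (by linarith) (by linarith))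
        (hE2 (U + N * T₀) (U + N * T₀ + T₀) (by linarith) (by linarith))]
      push_cast
      linarith
  refine ⟨c' * (U₀ + T₀) / (c' - c) + U₀, fun U T hU hT => ?_⟩
  have hcc0 : 0 < c' - c := by linarith
  have hc'0 : 0 < c' := by linarith
  have hq : 0 ≤ c' * (U₀ + T₀) / (c' - c) := by positivity
  have hTU : U₀ ≤ T := by linarith
  set W := max U U₀ with hW
  have hWU : U ≤ W := le_max_left _ _
  have hWU0 : U₀ ≤ W := le_max_right _ _
  have hW2 : W ≤ U + U₀ := max_le (by linarith) (by linarith)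
  have hWT : W ≤ U + T := by linarith
  set N := ⌊(U + T - W) / T₀⌋₊ with hN
  have hNle : (N:ℝ) * T₀ ≤ U + T - W := by
    have := Nat.floor_le (div_nonneg (by linarith : 0 ≤ U + T - W) hT₀.le)
    rwa [le_div_iff₀ hT₀] at this
  have hNlt : U + T - W < (N + 1) * T₀ := by
    have := Nat.lt_floor_add_one ((U + T - W) / T₀)
    rwa [div_lt_iff₀ hT₀] at this
  have hNT : 0 ≤ (N:ℝ) * T₀ := by positivity
  have h2 := hstep N W hWU0
  have h3 : ∫ r in W..(W + N * T₀), g r ≤ ∫ r in U..(U + T), g r := by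
    refine intervalIntegral.integral_mono_interval hWU (by linarith) (by linarith) ?_ (hE2 U (U + T) hU (by linarith))
    exact Filter.Eventually.of_forall fun r => hg r
  refine le_trans ?_ (h2.trans h3)
  have h4 : T - U₀ - T₀ ≤ N * T₀ := by nlinarith
  have h5 : c' * (U₀ + T₀) ≤ T * (c' - c) := by
    rw [← div_le_iff₀ hcc0]
    linarith
  nlinarith

/-- the step from an estimate with power saving to fixed windows -/
theorem window_pow {g : ℝ → ℝ} (hg : ∀ r, 0 ≤ g r) (hE2 : ∀ U V, 1 ≤ U → U ≤ V → IntervalIntegrable g volume U V)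
    {S K : ℝ} (hK : 0 < K) (h : ∀ U : ℝ, 4 ≤ U → ∀ T : ℝ, 0 < T → T ≤ U →
      T * S - K * (1 + U ^ (-(1/100):ℝ) * T) ≤ ∫ r in U..(U + T), g r) :
    ∀ c : ℝ, c < S → ∃ T₁ : ℝ, ∀ U T : ℝ, 1 ≤ U → T₁ ≤ T → c * T ≤ ∫ r in U..(U + T), g r := by
  refine window_gen hg hE2 fun c hc => ?_
  have hgp : 0 < S - c := by linarith
  have h2 : Tendsto (fun U : ℝ => K * U ^ (-(1/100):ℝ)) atTop (𝓝 0) := by
    simpa using (tendsto_rpow_neg_atTop (by norm_num : (0:ℝ) < 1/100)).const_mul K
  obtain ⟨U₀, hU₀⟩ := ((h2.eventually_le_const (by positivity : 0 < (S - c) / 2)).and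
    (eventually_ge_atTop (4 + 2 * K / (S - c)))).exists_forall_of_atTop
  have hq : 0 < 2 * K / (S - c) := by positivity
  refine ⟨2 * K / (S - c), max U₀ 1, hq, le_max_right _ _, fun U hU => ?_⟩
  obtain ⟨h3, h4⟩ := hU₀ U ((le_max_left _ _).trans hU)
  have h5 := h U (by linarith) (2 * K / (S - c)) hq (by linarith)
  refine le_trans ?_ h5
  set T := 2 * K / (S - c) with hT
  have h6 : T * (S - c) = 2 * K := by rw [hT]; field_simp
  have h8 : K * U ^ (-(1/100):ℝ) * T ≤ (S - c) / 2 * T := mul_le_mul_of_nonneg_right h3 hq.le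
  nlinarith

/-- positive and negative part -/
theorem sign_parts (ha : Bd a) (ha0 : a 0 = 0) (hw : Wt w) {κ₁ κ₂ C0 : ℝ} (hC0 : 0 < C0) (hS : Sand E a φ w κ₁ κ₂ C0)
    (hE : ∀ U V, 1 ≤ U → U ≤ V → IntervalIntegrable E volume U V) {n : ℕ} (hn : 1 ≤ n) :
    ∀ c : ℝ, c < a n / 4 → ∃ T₁ : ℝ, ∀ U T : ℝ, 1 ≤ U → T₁ ≤ T →
      c * T ≤ (∫ r in U..(U + T), max (E r) 0) ∧ c * T ≤ ∫ r in U..(U + T), max (-E r) 0 := by
  obtain ⟨K0, hK0, h0⟩ := coeff_gen (lam := 0) ha ha0 hw hC0 hS hE le_rfl (fun m hm => by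
    have hm0 : (0:ℝ) < m := by exact_mod_cast hm
    exact (Real.sqrt_pos.2 hm0).ne)
  obtain ⟨K1, hK1, h1⟩ := coeff ha ha0 hw hC0 hS hE hn
  have hmean : ∀ U : ℝ, 4 ≤ U → ∀ T : ℝ, 0 < T → T ≤ U → |∫ r in U..(U + T), E r| ≤ K0 * (1 + U ^ (-(1/100):ℝ) * T) := by
    intro U hU T hT hTU
    have := h0 U hU T hT hTU 0
    simpa using this
  have hco : ∀ U : ℝ, 4 ≤ U → ∀ T : ℝ, 0 < T → T ≤ U →
      |(∫ r in U..(U + T), E r * Real.cos (2 * Real.pi * √(n:ℝ) * r - φ)) - T / 2 * a n| ≤ K1 * (1 + U ^ (-(1/100):ℝ) * T) := by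
    intro U hU T hT hTU
    have := h1 U hU T hT hTU φ
    rwa [sub_self, Real.cos_zero, mul_one] at this
  have hpos : ∀ s : ℝ, s = 1 ∨ s = -1 → ∀ c : ℝ, c < a n / 4 → ∃ T₁ : ℝ, ∀ U T : ℝ, 1 ≤ U → T₁ ≤ T →
      c * T ≤ ∫ r in U..(U + T), max (s * E r) 0 := by
    intro s hs
    refine window_pow (g := fun r => max (s * E r) 0) (fun r => le_max_right _ _) (fun U V hU hUV => ?_) (K := K0 + K1)
      (by positivity) (fun U hU T hT hTU => ?_)
    · have h2 := ((hE U V hU hUV).const_mul s)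
      have h3 := (h2.abs.add h2).const_mul (1/2)
      refine h3.congr fun r _ => ?_
      show 1 / 2 * (|s * E r| + s * E r) = max (s * E r) 0
      rcases le_total (s * E r) 0 with h4 | h4
      · rw [abs_of_nonpos h4, max_eq_right h4]; ring
      · rw [abs_of_nonneg h4, max_eq_left h4]; ring
    · have hUV : U ≤ U + T := by linarith
      have hEI := hE U (U + T) (by linarith) hUV
      have hEc : IntervalIntegrable (fun r => E r * Real.cos (2 * Real.pi * √(n:ℝ) * r - φ)) volume U (U + T) :=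
        hEI.mul_continuousOn (by fun_prop)
      have h2 := (hEI.const_mul s)
      have h3 := (h2.abs.add h2).const_mul (1/2)
      have hmi : IntervalIntegrable (fun r => max (s * E r) 0) volume U (U + T) := by
        refine h3.congr fun r _ => ?_
        show 1 / 2 * (|s * E r| + s * E r) = max (s * E r) 0
        rcases le_total (s * E r) 0 with h4 | h4
        · rw [abs_of_nonpos h4, max_eq_right h4]; ring
        · rw [abs_of_nonneg h4, max_eq_left h4]; ring
      have hleft : IntervalIntegrable (fun r => (s / 2) * E r + (1 / 2) * (E r * Real.cos (2 * Real.pi * √(n:ℝ) * r - φ))) volume U (U + T) :=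
        (hEI.const_mul (s / 2)).add (hEc.const_mul (1 / 2))
      have h4 : ∫ r in U..(U + T), ((s / 2) * E r + (1 / 2) * (E r * Real.cos (2 * Real.pi * √(n:ℝ) * r - φ))) ≤
          ∫ r in U..(U + T), max (s * E r) 0 := by
        refine intervalIntegral.integral_mono_on hUV hleft hmi fun r _ => ?_
        have hc1 := Real.cos_le_one (2 * Real.pi * √(n:ℝ) * r - φ)
        have hc2 := Real.neg_one_le_cos (2 * Real.pi * √(n:ℝ) * r - φ)
        set x := Real.cos (2 * Real.pi * √(n:ℝ) * r - φ)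
        have hx : s / 2 * E r + 1 / 2 * (E r * x) = (s * E r) * ((1 + s * x) / 2) := by
          rcases hs with rfl | rfl <;> ring
        have hq0 : 0 ≤ (1 + s * x) / 2 := by rcases hs with rfl | rfl <;> linarith
        have hq1 : (1 + s * x) / 2 ≤ 1 := by rcases hs with rfl | rfl <;> linarith
        rw [hx]
        rcases le_total (s * E r) 0 with h5 | h5
        · rw [max_eq_right h5]
          exact mul_nonpos_of_nonpos_of_nonneg h5 hq0
        · rw [max_eq_left h5]
          exact mul_le_of_le_one_right h5 hq1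
      rw [intervalIntegral.integral_add (hEI.const_mul (s / 2)) (hEc.const_mul (1 / 2)),
        intervalIntegral.integral_const_mul, intervalIntegral.integral_const_mul] at h4
      have h5 := abs_le.1 (hmean U hU T hT hTU)
      have h6 := abs_le.1 (hco U hU T hT hTU)
      have h7 : 0 ≤ U ^ (-(1/100):ℝ) * T := by positivity
      refine le_trans ?_ h4
      set I0 := ∫ r in U..(U + T), E r
      set I1 := ∫ r in U..(U + T), E r * Real.cos (2 * Real.pi * √(n:ℝ) * r - φ)
      have h8 : -(K0 * (1 + U ^ (-(1/100):ℝ) * T)) ≤ s * I0 := by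
        rcases hs with rfl | rfl <;> linarith [h5.1, h5.2]
      have h9 : 0 ≤ K0 * (1 + U ^ (-(1/100):ℝ) * T) := by positivity
      have h10 : 0 ≤ K1 * (1 + U ^ (-(1/100):ℝ) * T) := by positivity
      have e : s / 2 * I0 = (s * I0) / 2 := by ring
      rw [e]
      nlinarith [h6.1]
  intro c hc
  obtain ⟨T₁, hT₁⟩ := hpos 1 (Or.inl rfl) c hc
  obtain ⟨T₂, hT₂⟩ := hpos (-1) (Or.inr rfl) c hc
  refine ⟨max T₁ T₂, fun U T hU hT => ⟨?_, ?_⟩⟩
  · simpa using hT₁ U T hU ((le_max_left _ _).trans hT)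
  · simpa using hT₂ U T hU ((le_max_right _ _).trans hT)

end

end Pool.Agent.Q212.GC
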