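import Pool.Agent.Q212.GC.C
import Pool.Agent.H383.GaussW

/-!
# The error term of the circle problem
-/

open MeasureTheory Filter Topology
open Pool.Agent.H383.GW Pool.Agent.H383.Gen Pool.Agent.H383.Gauss Pool.Agent.H383.Circ

set_option linter.unusedSectionVars false
set_option linter.unusedVariables false
set_option autoImplicit false

namespace Pool.Agent.Q212.GC

noncomputable section

theorem F_mono_on {U V : ℝ} (hU : 1 ≤ U) (hUV : U ≤ V) : MonotoneOn F (Set.uIcc U V) := by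
  rw [Set.uIcc_of_le hUV]
  intro r hr s _ hrs
  exact F_mono (by linarith [hr.1]) hrs

theorem F_nonneg (r : ℝ) : 0 ≤ F r := by unfold F; positivity

theorem inv_sqrt_cont {U V : ℝ} (hU : 1 ≤ U) (hUV : U ≤ V) : ContinuousOn (fun r : ℝ => (√r)⁻¹) (Set.uIcc U V) := by
  rw [Set.uIcc_of_le hUV]
  refine ContinuousOn.inv₀ (by fun_prop) fun r hr => ?_
  exact (Real.sqrt_pos.2 (by linarith [hr.1])).ne'

theorem En_ii (U V : ℝ) (hU : 1 ≤ U) (hUV : U ≤ V) : IntervalIntegrable En volume U V := by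
  have h1 : IntervalIntegrable F volume U V := (F_mono_on hU hUV).intervalIntegrable
  have h2 : IntervalIntegrable (fun r : ℝ => Real.pi * r ^ 2) volume U V := (by fun_prop : Continuous fun r : ℝ => Real.pi * r ^ 2).intervalIntegrable _ _
  have h3 := (h1.sub h2).mul_continuousOn (inv_sqrt_cont hU hUV)
  refine h3.congr fun r _ => ?_
  show (F r - Real.pi * r ^ 2) * (√r)⁻¹ = En r
  unfold En
  rw [div_eq_mul_inv]

theorem En2_ii (U V : ℝ) (hU : 1 ≤ U) (hUV : U ≤ V) : IntervalIntegrable (fun r => En r ^ 2) volume U V := by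
  have h1 : IntervalIntegrable F volume U V := (F_mono_on hU hUV).intervalIntegrable
  have h0 : IntervalIntegrable (fun r => F r ^ 2) volume U V := by
    refine MonotoneOn.intervalIntegrable fun r hr s hs hrs => ?_
    exact pow_le_pow_left₀ (F_nonneg r) ((F_mono_on hU hUV) hr hs hrs) 2
  have hc1 : Continuous fun r : ℝ => 2 * (Real.pi * r ^ 2) := by fun_prop
  have h2 : IntervalIntegrable (fun r : ℝ => (Real.pi * r ^ 2) ^ 2) volume U V := (by fun_prop : Continuous fun r : ℝ => (Real.pi * r ^ 2) ^ 2).intervalIntegrable _ _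
  have h3 := (((h0.sub (h1.mul_continuousOn hc1.continuousOn)).add h2).mul_continuousOn (inv_sqrt_cont hU hUV)).mul_continuousOn
    (inv_sqrt_cont hU hUV)
  refine h3.congr fun r _ => ?_
  show (F r ^ 2 - F r * (2 * (Real.pi * r ^ 2)) + (Real.pi * r ^ 2) ^ 2) * (√r)⁻¹ * (√r)⁻¹ = En r ^ 2
  unfold En
  rw [div_eq_mul_inv]
  ring

/-- number of representations as a sum of two squares, counted on pairs -/
def rr (n : ℕ) : ℝ := (Nat.card {p : ℤ × ℤ // p.1 ^ 2 + p.2 ^ 2 = (n : ℤ)} : ℝ)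

theorem rA_eq (n : ℕ) : rA n = rr n := by
  unfold rA rr
  rw [← Nat.card_coe_set_eq]
  congr 1
  refine Nat.card_congr ⟨fun z => ⟨(z.1.re, z.1.im), ?_⟩, fun p => ⟨⟨p.1.1, p.1.2⟩, ?_⟩, fun z => ?_, fun p => ?_⟩
  · have h := z.2
    change z.1.norm = (n:ℤ) at h
    rw [Pool.Agent.H383.Gauss.norm_eq] at h
    exact h
  · show (⟨p.1.1, p.1.2⟩ : GaussianInt).norm = (n:ℤ)
    rw [Pool.Agent.H383.Gauss.norm_eq]
    exact p.2
  · rfl
  · rfl

theorem ag_sq (n : ℕ) : (ag n) ^ 2 = 1 / Real.pi ^ 2 * (rr n ^ 2 * (n:ℝ) ^ (-(3/2):ℝ)) := by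
  unfold ag
  rw [rA_eq, mul_pow, div_pow]
  have h1 : ((√(n:ℝ)) ^ (-(3/2):ℝ)) ^ 2 = (n:ℝ) ^ (-(3/2):ℝ) := by
    have hn : (0:ℝ) ≤ n := by positivity
    rw [Real.sqrt_eq_rpow, ← Real.rpow_mul hn, ← Real.rpow_natCast, ← Real.rpow_mul hn]
    norm_num
  rw [h1]
  ring

theorem ag_val (n : ℕ) : ag n = rr n / Real.pi * (n:ℝ) ^ (-(3/4):ℝ) := by
  unfold ag
  rw [rA_eq]
  congr 1
  rw [Real.sqrt_eq_rpow, ← Real.rpow_mul (by positivity)]
  norm_num

theorem ag_sq_summable : Summable fun n : ℕ => (ag n) ^ 2 := by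
  obtain ⟨C, hC, ha⟩ := ag_Bd
  have hs : Summable (fun m : ℕ => C ^ 2 * (m:ℝ) ^ (-(37/25):ℝ)) := by
    apply Summable.mul_left
    rw [Real.summable_nat_rpow]; norm_num
  refine Summable.of_nonneg_of_le (fun m => by positivity) (fun m => ?_) hs
  rcases Nat.eq_zero_or_pos m with rfl | hm
  · rw [ag_zero, zero_pow (by norm_num)]; positivity
  · have hm0 : (0:ℝ) < m := by exact_mod_cast hm
    have h1 := ha m hm
    rw [← sq_abs]
    calc |ag m| ^ 2 ≤ (C * (√(m:ℝ)) ^ (-(37/25):ℝ)) ^ 2 := pow_le_pow_left₀ (abs_nonneg _) h1 2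
      _ = C ^ 2 * (m:ℝ) ^ (-(37/25):ℝ) := by
          rw [mul_pow, Real.sqrt_eq_rpow, ← Real.rpow_mul hm0.le, ← Real.rpow_natCast ((m:ℝ) ^ _), ← Real.rpow_mul hm0.le]
          norm_num

theorem rr_summable : Summable fun n : ℕ => rr n ^ 2 * (n:ℝ) ^ (-(3/2):ℝ) := by
  have h1 := ag_sq_summable.mul_left (Real.pi ^ 2)
  refine h1.congr fun n => ?_
  rw [ag_sq]
  have := Real.pi_pos.ne'
  field_simp

theorem const_eq : (∑' n : ℕ, (ag n) ^ 2) / 2 = 1 / (2 * Real.pi ^ 2) * ∑' n : ℕ, rr n ^ 2 * (n:ℝ) ^ (-(3/2):ℝ) := by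
  simp_rw [ag_sq]
  rw [tsum_mul_left]
  ring

theorem rr_one : rr 1 = 4 := by
  unfold rr
  have h : {p : ℤ × ℤ | p.1 ^ 2 + p.2 ^ 2 = ((1:ℕ):ℤ)} = ↑({(1,0),(-1,0),(0,1),(0,-1)} : Finset (ℤ × ℤ)) := by
    ext ⟨x, y⟩
    simp only [Set.mem_setOf_eq, Nat.cast_one, Finset.coe_insert, Finset.coe_singleton, Set.mem_insert_iff,
      Set.mem_singleton_iff, Prod.mk.injEq]
    constructor
    · intro h
      have hx1 : x ≤ 1 := by nlinarith [sq_nonneg y]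
      have hx2 : -1 ≤ x := by nlinarith [sq_nonneg y]
      have hy1 : y ≤ 1 := by nlinarith [sq_nonneg x]
      have hy2 : -1 ≤ y := by nlinarith [sq_nonneg x]
      interval_cases x <;> interval_cases y <;> simp_all
    · rintro (⟨rfl, rfl⟩ | ⟨rfl, rfl⟩ | ⟨rfl, rfl⟩ | ⟨rfl, rfl⟩) <;> norm_num
  have h2 : Nat.card {p : ℤ × ℤ // p.1 ^ 2 + p.2 ^ 2 = ((1:ℕ):ℤ)} = 4 := by
    have h3 : Nat.card {p : ℤ × ℤ // p.1 ^ 2 + p.2 ^ 2 = ((1:ℕ):ℤ)} =
        ({p : ℤ × ℤ | p.1 ^ 2 + p.2 ^ 2 = ((1:ℕ):ℤ)} : Set (ℤ × ℤ)).ncard := Nat.card_coe_set_eq _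
    rw [h3, h, Set.ncard_coe_finset]
    rfl
  rw [h2]
  norm_num

theorem ag_one : ag 1 / 4 = 1 / Real.pi := by
  rw [ag_val, rr_one]
  norm_num
  ring

/-- the error term -/
def P (r : ℝ) : ℝ := (Nat.card {p : ℤ × ℤ // (p.1 : ℝ) ^ 2 + (p.2 : ℝ) ^ 2 ≤ r ^ 2} : ℝ) - Real.pi * r ^ 2

theorem En_eq (r : ℝ) : En r = P r / √r := rfl

theorem En_sq {r : ℝ} (hr : 0 ≤ r) : En r ^ 2 = P r ^ 2 / r := by
  rw [En_eq, div_pow, Real.sq_sqrt hr]

end

end Pool.Agent.Q212.GC
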